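import Pool.Agent.TPU.Cor59

/-!
MP_78efad_nt, Q1 (affirmative side), for indices away from the centre.

Let `100 M ≤ K`, `K` even, and let `n` be at most the number of integers `1 ≤ m ≤ M` prime to
`D`.  Then for every primitive character `χ` modulo `D` and all
`3 ≤ ℓ₁ < ... < ℓₙ ≤ K / 2 - 2 - 3 M` the twisted periods `r_{ℓ₁,χ}, ..., r_{ℓₙ,χ}` are linearly
independent on `S_K`.  (Take `M = ⌊K / 100⌋`: the number `n` of periods may be proportional to `K`,
and the bound on `K` does not depend on `D` except through the count of the `m` prime to `D`.)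
-/

set_option linter.all false

open UpperHalfPlane ModularForm
open scoped MatrixGroups Real

namespace Pool.Agent.Results.MP_78efad_nt.AwayFromCentre

open Pool.Agent.Helper54.TP

theorem result (D : ℕ) (hD : 1 ≤ D) (χ : DirichletCharacter ℂ D) (hχ : χ.IsPrimitive)
    (K M n : ℕ) (hK : Even K) (hKM : 100 * M ≤ K)
    (hn : n ≤ ((Finset.Icc 1 M).filter (fun m => m.Coprime D)).card)
    (ℓ : Fin n → ℕ) (hℓ : StrictMono ℓ) (h3 : ∀ i, 3 ≤ ℓ i)
    (h4 : ∀ i, 2 * ℓ i + 4 + 6 * M ≤ K) :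
    LinearIndependent ℂ
      (fun i : Fin n => (twistedPeriod (ℓ i) χ : CuspForm 𝒮ℒ (K : ℤ) → ℂ)) :=
  Pool.Agent.TPU.indep_away hD χ hχ K n M hK hKM hn ℓ hℓ h3 h4

end Pool.Agent.Results.MP_78efad_nt.AwayFromCentre
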