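import Pool.Agent.Helper54.TP.Final59

/-!
MP_78efad_nt, Q1 (affirmative side).

Let `D ≥ 1`, let `χ` be a primitive Dirichlet character modulo `D`, let `K` be even and
`3 ≤ ℓ₁ < ... < ℓₙ ≤ (K - 4) / 2`.  The twisted periods `r_{ℓ₁,χ}, ..., r_{ℓₙ,χ}` are linearly
independent on `S_K`

* if there are at least `2 n` integers `m` with `1 ≤ m`, `50 m D ≤ K`, `(m, D) = 1`, on which
  `χ(m) ^ 2` is constant;
* for every `χ`, if `100 n D ^ 2 ≤ K`;
* for `χ ^ 2 = 1` (so in particular for `D = 1`), if `2 n` is at most the number of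
  `m ≤ K / (50 D)` prime to `D`.

Method.  The periods are evaluated at the Poincaré series `P_m`, `m` in the given set.  The main
terms of `r_{ℓ,χ}(P_m)` are `A_ℓ χ(m) m ^ (-ℓ - 1) + B_ℓ χ(m)⁻¹ m ^ (ℓ + 1 - K)`; a generalized
Vandermonde matrix in the `2 n` distinct exponents, controlled through Descartes' rule of signs,
gives a lower bound for the largest entry of a combination which beats the error terms.
-/

set_option linter.all false

open UpperHalfPlane ModularForm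
open scoped MatrixGroups Real

namespace Pool.Agent.Results.MP_78efad_nt.LinearRange

open Pool.Agent.Helper54.TP

theorem result (D : ℕ) (hD : 1 ≤ D) (χ : DirichletCharacter ℂ D) (hχ : χ.IsPrimitive)
    (K : ℕ) (hK : Even K) (n : ℕ) (ℓ : Fin n → ℕ) (hℓ : StrictMono ℓ)
    (h3 : ∀ i, 3 ≤ ℓ i) (h4 : ∀ i, 2 * ℓ i + 4 ≤ K)
    (h : (∃ T : Finset ℕ, (∀ m ∈ T, 1 ≤ m ∧ 50 * m * D ≤ K ∧ m.Coprime D) ∧
            (∀ m ∈ T, ∀ m' ∈ T, χ (m : ZMod D) ^ 2 = χ (m' : ZMod D) ^ 2) ∧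
            2 * n ≤ T.card) ∨
         100 * n * D ^ 2 ≤ K ∨
         (χ ^ 2 = 1 ∧
            2 * n ≤ ((Finset.Icc 1 (K / (50 * D))).filter (fun m => m.Coprime D)).card)) :
    LinearIndependent ℂ
      (fun i : Fin n => (twistedPeriod (ℓ i) χ : CuspForm 𝒮ℒ (K : ℤ) → ℂ)) := by
  rcases h with ⟨T, hT, hTs, hcard⟩ | h | ⟨hreal, h⟩
  · refine indep_of_nodes hD χ hχ K n (K / (50 * D)) hK ?_ T ?_ hTs hcard ℓ hℓ h3 h4
    · calc 50 * (K / (50 * D)) * D = (K / (50 * D)) * (50 * D) := by ring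
        _ ≤ K := Nat.div_mul_le_self _ _
    · intro m hm
      obtain ⟨h1, h2, h5⟩ := hT m hm
      refine ⟨h1, ?_, h5⟩
      rw [Nat.le_div_iff_mul_le (by positivity)]
      linarith [h2, (by ring : m * (50 * D) = 50 * m * D)]
  · exact indep_all hD χ hχ K n hK h ℓ hℓ h3 h4
  · exact indep_real hD χ hχ hreal K n hK h ℓ hℓ h3 h4

end Pool.Agent.Results.MP_78efad_nt.LinearRange
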