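import Pool.Agent.Helper54.TP.Dim
import Pool.Agent.Helper54.TP.ImAxis
import Pool.Agent.Helper54.TP.TestForm
import Pool.Agent.Helper54.TP.Signs
import Pool.Agent.Helper54.TP.LevOne

/-!
MP_78efad_nt, Q1 for `D = 1` (classical periods), complete affirmative answer.

For the trivial character, every weight `K`, every `n ≤ dim S_K` and all integers
`ℓ₁ < ... < ℓₙ ≤ (K - 4) / 2` (no parity condition, and `ℓ_i < 3` is allowed) the periods
`r_{ℓ₁}, ..., r_{ℓₙ}` are linearly independent on `S_K`.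

Method.  `∫_0^∞ f(iy) y^ℓ dy = ∫_1^∞ f(iy) (y^ℓ + i^K y^{K-2-ℓ}) dy`.  A relation gives a nonzero
real polynomial `g(y) = ∑ b_i (y^{ℓ_i} ± y^{K-2-ℓ_i})` with `∫_1^∞ f(iy) g(y) dy = 0` for all
`f ∈ S_K` which are real on the imaginary axis.  By Descartes' rule and the symmetry `y ↔ 1/y`
the polynomial `g` has at most `n - 1` distinct roots in `(1,∞)`.  A suitable product of
`E₄`, `E₆`, `Δ` and of forms `E₆² - t E₄³` changes its sign on the imaginary axis above `i`
exactly at the roots of `g` of odd multiplicity; this is a contradiction.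
-/

open UpperHalfPlane ModularForm
open scoped MatrixGroups Real

namespace Pool.Agent.Results.MP_78efad_nt.TrivialCharacter

open Pool.Agent.Helper54.TP

theorem result (χ : DirichletCharacter ℂ 1) (K n : ℕ)
    (hn : n ≤ Module.finrank ℂ (CuspForm 𝒮ℒ (K : ℤ))) (ℓ : Fin n → ℕ) (hℓ : StrictMono ℓ)
    (h4 : ∀ i, 2 * ℓ i + 4 ≤ K) :
    LinearIndependent ℂ
      (fun i : Fin n => (twistedPeriod (ℓ i) χ : CuspForm 𝒮ℒ (K : ℤ) → ℂ)) := by
  obtain ⟨e4, h41, h42, h43⟩ := E4_axis
  obtain ⟨e6, h61, h62, h63, h64⟩ := E6_axis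
  exact level_one_aux dim_bound
    (fun K d δ ε k hK hk ρ hρ =>
      exists_test_aux e4 e6 h41 h42 h43 h61 h62 h63 h64 K d δ ε k hK hk ρ hρ)
    signs χ K n hn ℓ hℓ h4

end Pool.Agent.Results.MP_78efad_nt.TrivialCharacter
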