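import Pool.Agent.TPU.Cor59

/-!
MP_78efad_nt, Q1 (affirmative side), uniformly in the conductor.

Let `p ≥ 2` be prime to `D` and let `K ≥ 10 ^ 9 p ^ (3 (n - 1))` be even.  Then for every
primitive character `χ` modulo `D` and all `3 ≤ ℓ₁ < ... < ℓₙ ≤ (K - 4) / 2` the twisted periods
`r_{ℓ₁,χ}, ..., r_{ℓₙ,χ}` are linearly independent on `S_K`.  For odd `D` (`p = 2`) the bound
on `K` depends on `n` only.

Method.  By the functional equation `r_{ℓ,χ}(f)` is a constant times the integral of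
`f_{χ⁻¹}(iw) w ^ t`, `t = K - 2 - ℓ ≥ K / 2`.  For the Poincaré series `P_m` this is the main term
`2 χ⁻¹(m) t! / (2 π m) ^ (t + 1)` up to a relative error of at most
`250 m ^ (3/2) K ^ (-1/2) (36 m / K) ^ (2 r)`, `r = K / 2 - 2 - ℓ`, independently of `D`: the
twist is bounded through the inequalities of Bessel and Cauchy-Schwarz by the supremum of
`P_m(z) - 2 e(m z)` on a horizontal line, which is bounded by the modularity of `P_m`.  The
nodes `1, p, ..., p ^ (n - 1)` give a well conditioned generalized Vandermonde matrix.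
-/

set_option linter.all false

open UpperHalfPlane ModularForm
open scoped MatrixGroups Real

namespace Pool.Agent.Results.MP_78efad_nt.UniformConductor

open Pool.Agent.Helper54.TP

theorem result (D : ℕ) (hD : 1 ≤ D) (χ : DirichletCharacter ℂ D) (hχ : χ.IsPrimitive)
    (p : ℕ) (hp : 2 ≤ p) (hpD : p.Coprime D) (K : ℕ) (hK : Even K) (n : ℕ) (hn : 1 ≤ n)
    (hKn : 10 ^ 9 * p ^ (3 * (n - 1)) ≤ K) (ℓ : Fin n → ℕ) (hℓ : StrictMono ℓ)
    (h3 : ∀ i, 3 ≤ ℓ i) (h4 : ∀ i, 2 * ℓ i + 4 ≤ K) :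
    LinearIndependent ℂ
      (fun i : Fin n => (twistedPeriod (ℓ i) χ : CuspForm 𝒮ℒ (K : ℤ) → ℂ)) :=
  Pool.Agent.TPU.indep_powers hD χ hχ K n p hK hp hpD hn hKn ℓ hℓ h3 h4

end Pool.Agent.Results.MP_78efad_nt.UniformConductor
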